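import Mathlib

/-!
# Rooted trees given by parent functions
-/

namespace Pool.Agent.LeafPaths

open Finset SimpleGraph

/-- a rooted tree given by a parent function and a depth function -/
structure RT (V : Type*) where
  /-- the root -/
  root : V
  /-- the parent function (junk at the root) -/
  par : V → V
  /-- the depth -/
  dep : V → ℕ
  dep_root : dep root = 0
  dep_par : ∀ v, v ≠ root → dep v = dep (par v) + 1

namespace RT

variable {V : Type*} (R : RT V)

/-- the graph of a rooted tree -/
def graph : SimpleGraph V where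
  Adj u v := (u ≠ R.root ∧ R.par u = v) ∨ (v ≠ R.root ∧ R.par v = u)
  symm := ⟨fun u v h => h.symm⟩
  loopless := ⟨fun v h => by
    rcases h with h | h <;>
    · have := R.dep_par v h.1
      rw [h.2] at this
      omega⟩

lemma adj_iff (u v : V) : R.graph.Adj u v ↔
    (u ≠ R.root ∧ R.par u = v) ∨ (v ≠ R.root ∧ R.par v = u) := Iff.rfl

lemma dep_eq_zero {v : V} : R.dep v = 0 ↔ v = R.root := by
  constructor
  · intro h
    by_contra hv
    have := R.dep_par v hv
    omega
  · rintro rfl
    exact R.dep_root

lemma dep_iterate (x : V) : ∀ i, i ≤ R.dep x → R.dep (R.par^[i] x) = R.dep x - i := by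
  intro i
  induction i with
  | zero => intro _; simp
  | succ i ih =>
    intro hi
    have h1 := ih (by omega)
    have h2 : R.par^[i] x ≠ R.root := by
      intro h
      rw [h, R.dep_root] at h1
      omega
    have h3 := R.dep_par _ h2
    rw [Function.iterate_succ_apply']
    omega

/-- `x` is a descendant of `v` (possibly `v` itself) -/
def Below (v x : V) : Prop := R.dep v ≤ R.dep x ∧ R.par^[R.dep x - R.dep v] x = v

lemma below_refl (v : V) : R.Below v v := ⟨le_rfl, by simp⟩

lemma below_root (v : V) : R.Below R.root v := by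
  refine ⟨by rw [R.dep_root]; omega, ?_⟩
  rw [R.dep_root, Nat.sub_zero, ← R.dep_eq_zero, R.dep_iterate v _ le_rfl]
  omega

variable [Fintype V] [DecidableEq V]

/-- the children of a vertex -/
def ch (v : V) : Finset V := univ.filter fun w => w ≠ R.root ∧ R.par w = v

lemma mem_ch {v w : V} : w ∈ R.ch v ↔ w ≠ R.root ∧ R.par w = v := by simp [ch]

lemma dep_ch {v w : V} (h : w ∈ R.ch v) : R.dep w = R.dep v + 1 := by
  rw [mem_ch] at h
  rw [← h.2]
  exact R.dep_par w h.1

lemma below_of_ch {v w x : V} (hw : w ∈ R.ch v) (h : R.Below w x) : R.Below v x := by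
  have h1 := R.dep_ch hw
  obtain ⟨h2, h3⟩ := h
  refine ⟨by omega, ?_⟩
  have : R.dep x - R.dep v = (R.dep x - R.dep w) + 1 := by omega
  rw [this, Function.iterate_succ_apply', h3]
  exact (R.mem_ch.1 hw).2

lemma exists_ch {v x : V} (h : R.Below v x) (hne : v ≠ x) : ∃ w ∈ R.ch v, R.Below w x := by
  obtain ⟨h1, h2⟩ := h
  have h3 : R.dep v < R.dep x := by
    rcases Nat.lt_or_ge (R.dep v) (R.dep x) with h | h
    · exact h
    · exfalso
      have : R.dep x - R.dep v = 0 := by omega
      rw [this] at h2
      exact hne h2.symm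
  obtain ⟨m, hm⟩ : ∃ m, R.dep x - R.dep v = m + 1 := ⟨R.dep x - R.dep v - 1, by omega⟩
  have h4 := R.dep_iterate x m (by omega)
  refine ⟨R.par^[m] x, ?_, ?_, ?_⟩
  · rw [mem_ch]
    refine ⟨?_, ?_⟩
    · intro h
      rw [h, R.dep_root] at h4
      omega
    · rw [hm, Function.iterate_succ_apply'] at h2
      exact h2
  · omega
  · rw [h4]
    have : R.dep x - (R.dep x - m) = m := by omega
    rw [this]

lemma ch_unique {v w w' x : V} (hw : w ∈ R.ch v) (hw' : w' ∈ R.ch v) (h : R.Below w x)
    (h' : R.Below w' x) : w = w' := by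
  have h1 := R.dep_ch hw
  have h2 := R.dep_ch hw'
  rw [← h.2, ← h'.2, h1, h2]

lemma not_below_ch {v w : V} (hw : w ∈ R.ch v) : ¬ R.Below w v := by
  intro h
  have := R.dep_ch hw
  have := h.1
  omega

lemma adj_of_ch {v w : V} (hw : w ∈ R.ch v) : R.graph.Adj v w := Or.inr (R.mem_ch.1 hw)

/-- the path from `v` down to a descendant -/
lemma exists_down {v x : V} (h : R.Below v x) : ∃ p : R.graph.Walk v x, p.IsPath ∧
    p.length = R.dep x - R.dep v ∧ ∀ u ∈ p.support, R.Below v u := by
  obtain ⟨k, hk⟩ : ∃ k, R.dep x - R.dep v = k := ⟨_, rfl⟩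
  induction k generalizing v with
  | zero =>
    have h1 : v = x := by
      have := h.2
      rw [hk] at this
      exact this.symm
    subst h1
    exact ⟨Walk.nil, Walk.IsPath.nil, by simp, by
      intro u hu
      rw [Walk.support_nil, List.mem_singleton] at hu
      rw [hu]; exact R.below_refl v⟩
  | succ k ih =>
    have hne : v ≠ x := by rintro rfl; simp at hk
    obtain ⟨w, hw, hwx⟩ := R.exists_ch h hne
    have h1 := R.dep_ch hw
    obtain ⟨p, hp, hl, hs⟩ := ih hwx (by omega)
    refine ⟨Walk.cons (R.adj_of_ch hw) p, ?_, ?_, ?_⟩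
    · rw [Walk.cons_isPath_iff]
      exact ⟨hp, fun hv => R.not_below_ch hw (hs v hv)⟩
    · rw [Walk.length_cons, hl]
      omega
    · intro u hu
      rw [Walk.support_cons, List.mem_cons] at hu
      rcases hu with rfl | hu
      · exact R.below_refl _
      · exact R.below_of_ch hw (hs u hu)

/-- the path between descendants in different branches -/
lemma exists_cross {v w w' x y : V} (hw : w ∈ R.ch v) (hw' : w' ∈ R.ch v) (hne : w ≠ w')
    (hx : R.Below w x) (hy : R.Below w' y) : ∃ p : R.graph.Walk x y, p.IsPath ∧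
    p.length = (R.dep x - R.dep v) + (R.dep y - R.dep v) := by
  obtain ⟨p, hp, hl, hs⟩ := R.exists_down hx
  obtain ⟨q, hq, hl', hs'⟩ := R.exists_down hy
  have h1 := R.dep_ch hw
  have h2 := R.dep_ch hw'
  have h3 := hx.1
  have h4 := hy.1
  let r : R.graph.Walk v y := Walk.cons (R.adj_of_ch hw') q
  let t : R.graph.Walk w y := Walk.cons (R.adj_of_ch hw).symm r
  refine ⟨p.reverse.append t, ?_, ?_⟩
  · rw [Walk.isPath_def, Walk.support_append, List.nodup_append]
    refine ⟨?_, ?_, ?_⟩
    · rw [← Walk.isPath_def]; exact hp.reverse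
    · simp only [t, r, Walk.support_cons, List.tail_cons, List.nodup_cons]
      refine ⟨fun hv => R.not_below_ch hw' (hs' v hv), ?_⟩
      rw [← Walk.isPath_def]; exact hq
    · intro a ha b hb hab
      subst hab
      rw [Walk.support_reverse, List.mem_reverse] at ha
      have h5 := hs a ha
      simp only [t, r, Walk.support_cons, List.tail_cons, List.mem_cons] at hb
      rcases hb with hb | hb
      · rw [hb] at h5; exact R.not_below_ch hw h5
      · exact hne (R.ch_unique hw hw' h5 (hs' a hb))
  · rw [Walk.length_append, Walk.length_reverse]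
    simp only [t, r, Walk.length_cons]
    omega

/-- the path from a vertex in a branch to the branching vertex itself -/
lemma exists_up {v x : V} (hx : R.Below v x) : ∃ p : R.graph.Walk x v, p.IsPath ∧
    p.length = R.dep x - R.dep v := by
  obtain ⟨p, hp, hl, -⟩ := R.exists_down hx
  exact ⟨p.reverse, hp.reverse, by rw [Walk.length_reverse, hl]⟩

lemma connected : R.graph.Connected := by
  have h : ∀ x, R.graph.Reachable R.root x := by
    intro x
    obtain ⟨p, -⟩ := R.exists_down (R.below_root x)
    exact ⟨p⟩
  have : Nonempty V := ⟨R.root⟩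
  exact ⟨fun x y => (h x).symm.trans (h y)⟩

lemma dist_root_le (x : V) : R.graph.dist R.root x ≤ R.dep x := by
  obtain ⟨p, -, hl, -⟩ := R.exists_down (R.below_root x)
  have := dist_le p
  rw [R.dep_root] at hl
  omega

lemma neighborSet_eq (v : V) : R.graph.neighborSet v =
    ((R.ch v ∪ (if v = R.root then ∅ else {R.par v}) : Finset V) : Set V) := by
  ext w
  rw [mem_neighborSet, adj_iff, Finset.mem_coe, Finset.mem_union, mem_ch]
  split_ifs with h
  · simp [h]
  · simp only [Finset.mem_singleton]
    constructor
    · rintro (⟨_, h2⟩ | h2)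
      · exact Or.inr h2.symm
      · exact Or.inl h2
    · rintro (h2 | h2)
      · exact Or.inr h2
      · exact Or.inl ⟨h, h2.symm⟩

lemma degree_eq (v : V) : (R.graph.neighborSet v).ncard =
    (R.ch v).card + (if v = R.root then 0 else 1) := by
  rw [neighborSet_eq, Set.ncard_coe_finset]
  rw [Finset.card_union_of_disjoint]
  · split_ifs <;> simp
  · rw [Finset.disjoint_left]
    intro a ha hb
    split_ifs at hb with h
    · simp at hb
    · rw [Finset.mem_singleton] at hb
      have h1 := R.dep_ch ha
      have h2 := R.dep_par v h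
      rw [hb] at h1
      omega

lemma sum_ch : ∑ v, (R.ch v).card = Fintype.card V - 1 := by
  have h1 : (univ.erase R.root : Finset V) = univ.biUnion R.ch := by
    ext w
    simp [mem_ch]
  have h2 : (univ.biUnion R.ch).card = ∑ v, (R.ch v).card := by
    apply Finset.card_biUnion
    intro x _ y _ hxy
    simp only [Function.onFun]
    rw [Finset.disjoint_left]
    intro a ha hb
    rw [mem_ch] at ha hb
    exact hxy (ha.2.symm.trans hb.2)
  rw [← h2, ← h1, Finset.card_erase_of_mem (Finset.mem_univ _), Finset.card_univ]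

lemma isTree : R.graph.IsTree := by
  classical
  rw [isTree_iff_connected_and_card]
  refine ⟨R.connected, ?_⟩
  have h1 := R.connected.card_vert_le_card_edgeSet_add_one
  have h2 : R.graph.edgeSet ⊆ (((univ.erase R.root).image fun v => s(v, R.par v) : Finset (Sym2 V)) :
      Set (Sym2 V)) := by
    intro e
    induction e using Sym2.ind with
    | _ x y =>
      intro h
      rw [mem_edgeSet, adj_iff] at h
      rw [Finset.mem_coe, Finset.mem_image]
      rcases h with h | h
      · exact ⟨x, by simp [h.1], by rw [h.2]⟩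
      · exact ⟨y, by simp [h.1], by rw [h.2, Sym2.eq_swap]⟩
  have h3 : Nat.card R.graph.edgeSet ≤ (univ.erase R.root : Finset V).card := by
    refine (Nat.card_mono (Finset.finite_toSet _) h2).trans ?_
    rw [Nat.card_coe_set_eq, Set.ncard_coe_finset]
    exact Finset.card_image_le
  rw [Finset.card_erase_of_mem (Finset.mem_univ _), Finset.card_univ] at h3
  have h4 : 0 < Fintype.card V := Fintype.card_pos_iff.2 ⟨R.root⟩
  rw [Nat.card_eq_fintype_card (α := V)] at h1 ⊢
  omega

end RT

/-- every tree is the graph of a rooted tree with a prescribed root -/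
lemma exists_rooted {V : Type*} [Fintype V] [DecidableEq V] {T : SimpleGraph V} (hT : T.IsTree)
    (c : V) : ∃ R : RT V, R.root = c ∧ R.graph = T ∧ ∀ v, R.dep v = T.dist c v := by
  have h : ∀ v, v ≠ c → ∃ u, T.Adj u v ∧ T.dist c v = T.dist c u + 1 := by
    intro v hv
    obtain ⟨p, hp⟩ := hT.connected.exists_walk_length_eq_dist c v
    have hnil : ¬ p.Nil := fun hn => hv hn.eq.symm
    refine ⟨p.penultimate, p.adj_penultimate hnil, ?_⟩
    have h1 : T.dist c p.penultimate ≤ p.length - 1 := by
      refine (dist_le p.dropLast).trans ?_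
      rw [Walk.length_dropLast]
    have h2 : 0 < p.length := Walk.not_nil_iff_lt_length.1 hnil
    have h3 := hT.dist_eq_dist_add_one_of_adj c (p.adj_penultimate hnil)
    omega
  choose! f hf hf' using h
  let R : RT V := ⟨c, f, T.dist c, by simp, fun v hv => hf' v hv⟩
  refine ⟨R, rfl, ?_, fun v => rfl⟩
  have hle : R.graph ≤ T := by
    intro u v huv
    rcases huv with h | h
    · have h1 := hf u h.1
      have h2 : f u = v := h.2
      rw [h2] at h1
      exact h1.symm
    · have h1 := hf v h.1
      have h2 : f v = u := h.2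
      rw [h2] at h1
      exact h1
  exact le_antisymm hle ((isTree_iff_minimal_connected.1 hT).2 R.connected hle)

end Pool.Agent.LeafPaths
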