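import Pool.Agent.LeafPaths.Knapsack
import Pool.Agent.LeafPaths.Rooted

/-!
# Binary subtrees
-/

namespace Pool.Agent.LeafPaths

open Finset SimpleGraph

namespace RT

variable {V : Type*} [Fintype V] [DecidableEq V] (R : RT V)

open Classical in
/-- the descendants of a vertex -/
noncomputable def D (v : V) : Finset V := univ.filter (R.Below v)

lemma mem_D {v x : V} : x ∈ R.D v ↔ R.Below v x := by simp [D]

lemma D_eq (v : V) : R.D v = insert v ((R.ch v).biUnion R.D) := by
  ext x
  rw [Finset.mem_insert, Finset.mem_biUnion, mem_D]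
  constructor
  · intro h
    by_cases hx : v = x
    · exact Or.inl hx.symm
    · obtain ⟨w, hw, hwx⟩ := R.exists_ch h hx
      exact Or.inr ⟨w, hw, R.mem_D.2 hwx⟩
  · rintro (rfl | ⟨w, hw, hwx⟩)
    · exact R.below_refl x
    · exact R.below_of_ch hw (R.mem_D.1 hwx)

lemma disj_D {v w w' : V} (hw : w ∈ R.ch v) (hw' : w' ∈ R.ch v) (hne : w ≠ w') :
    Disjoint (R.D w) (R.D w') := by
  rw [Finset.disjoint_left]
  intro a ha hb
  exact hne (R.ch_unique hw hw' (R.mem_D.1 ha) (R.mem_D.1 hb))

lemma sum_D {M : Type*} [AddCommMonoid M] (g : V → M) (v : V) :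
    ∑ u ∈ R.D v, g u = g v + ∑ w ∈ R.ch v, ∑ u ∈ R.D w, g u := by
  rw [R.D_eq v, Finset.sum_insert, Finset.sum_biUnion]
  · intro w hw w' hw' hne
    exact R.disj_D hw hw' hne
  · intro h
    rw [Finset.mem_biUnion] at h
    obtain ⟨w, hw, h⟩ := h
    exact R.not_below_ch hw (R.mem_D.1 h)

lemma card_D_lt {v w : V} (hw : w ∈ R.ch v) : (R.D w).card < (R.D v).card := by
  apply Finset.card_lt_card
  rw [Finset.ssubset_iff_of_subset]
  · exact ⟨v, R.mem_D.2 (R.below_refl v), fun h => R.not_below_ch hw (R.mem_D.1 h)⟩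
  · intro x hx
    exact R.mem_D.2 (R.below_of_ch hw (R.mem_D.1 hx))

/-- the number of internal vertices below `v` -/
noncomputable def m (v : V) : ℝ := ∑ u ∈ R.D v, if R.ch u = ∅ then 0 else 1

/-- numbers of children -/
def e (v : V) : ℕ := (R.ch v).card

lemma exists_binary (A : Finset ℕ) (h2 : ∀ v, v ≠ R.root → (R.ch v).card ≠ 1)
    (hA : ∀ v w w' x y, w ∈ R.ch v → w' ∈ R.ch v → w ≠ w' → R.Below w x →
      R.Below w' y → R.ch x = ∅ → R.ch y = ∅ → R.dep x = R.dep y →
      2 * (R.dep x - R.dep v) ∈ A) :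
    ∀ v, v ≠ R.root → ∃ X : Finset V, X.Nonempty ∧ (∀ x ∈ X, R.Below v x ∧ R.ch x = ∅) ∧
      (∀ a, (X.filter (fun x => R.dep x = a)).card ≤
        2 ^ (A.filter (fun l => 0 < l ∧ l ≤ 2 * (a - R.dep v))).card) ∧
      R.m v ≤ That (Kf R.e (R.D v)) ((X.card : ℝ) - 1) := by
  intro v
  obtain ⟨k, hk⟩ : ∃ k, (R.D v).card = k := ⟨_, rfl⟩
  induction k using Nat.strong_induction_on generalizing v with
  | _ k IH =>
  intro hv
  by_cases hleaf : R.ch v = ∅
  · -- leaf
    refine ⟨{v}, Finset.singleton_nonempty v, ?_, ?_, ?_⟩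
    · intro x hx
      rw [Finset.mem_singleton] at hx
      subst hx
      exact ⟨R.below_refl _, hleaf⟩
    · intro a
      refine (Finset.card_le_card (Finset.filter_subset _ _)).trans ?_
      rw [Finset.card_singleton]
      exact Nat.one_le_two_pow
    · rw [Finset.card_singleton, Nat.cast_one, sub_self, That_le zero_le_one]
      unfold m
      rw [R.sum_D, hleaf]
      simp
  · -- internal
    have hne : (R.ch v).Nonempty := Finset.nonempty_iff_ne_empty.2 hleaf
    have hcard : 2 ≤ (R.ch v).card := by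
      have := h2 v hv
      have := hne.card_pos
      omega
    have IH' : ∀ w ∈ R.ch v, ∃ X : Finset V, X.Nonempty ∧ (∀ x ∈ X, R.Below w x ∧ R.ch x = ∅) ∧
      (∀ a, (X.filter (fun x => R.dep x = a)).card ≤
        2 ^ (A.filter (fun l => 0 < l ∧ l ≤ 2 * (a - R.dep w))).card) ∧
      R.m w ≤ That (Kf R.e (R.D w)) ((X.card : ℝ) - 1) := by
      intro w hw
      exact IH _ (hk ▸ R.card_D_lt hw) w rfl (R.mem_ch.1 hw).1
    choose! X hX1 hX2 hX3 hX4 using IH'
    obtain ⟨w₁, hw₁, hmax₁⟩ := Finset.exists_max_image (R.ch v) (fun w => (X w).card) hne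
    have hJne : ((R.ch v).erase w₁).Nonempty := by
      rw [← Finset.card_pos, Finset.card_erase_of_mem hw₁]
      omega
    obtain ⟨w₂, hw₂', hmax₂⟩ := Finset.exists_max_image ((R.ch v).erase w₁)
      (fun w => (X w).card) hJne
    have hw₂ : w₂ ∈ R.ch v := Finset.mem_of_mem_erase hw₂'
    have hne12 : w₂ ≠ w₁ := Finset.ne_of_mem_erase hw₂'
    have hdisj : Disjoint (X w₁) (X w₂) := by
      rw [Finset.disjoint_left]
      intro a ha hb
      exact hne12 (R.ch_unique hw₂ hw₁ (hX2 _ hw₂ a hb).1 (hX2 _ hw₁ a ha).1)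
    have hdep₁ := R.dep_ch hw₁
    have hdep₂ := R.dep_ch hw₂
    refine ⟨X w₁ ∪ X w₂, (hX1 _ hw₁).mono Finset.subset_union_left, ?_, ?_, ?_⟩
    · intro x hx
      rw [Finset.mem_union] at hx
      rcases hx with hx | hx
      · exact ⟨R.below_of_ch hw₁ (hX2 _ hw₁ x hx).1, (hX2 _ hw₁ x hx).2⟩
      · exact ⟨R.below_of_ch hw₂ (hX2 _ hw₂ x hx).1, (hX2 _ hw₂ x hx).2⟩
    · intro a
      rw [Finset.filter_union]
      refine (Finset.card_union_le _ _).trans ?_
      have h3 := hX3 w₁ hw₁ a
      have h4 := hX3 w₂ hw₂ a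
      rw [hdep₁] at h3
      rw [hdep₂] at h4
      have hsub : A.filter (fun l => 0 < l ∧ l ≤ 2 * (a - (R.dep v + 1))) ⊆
          A.filter (fun l => 0 < l ∧ l ≤ 2 * (a - R.dep v)) := by
        intro l hl
        rw [Finset.mem_filter] at hl ⊢
        exact ⟨hl.1, hl.2.1, by omega⟩
      rcases Finset.eq_empty_or_nonempty ((X w₁).filter (fun x => R.dep x = a)) with h5 | h5
      · rw [h5, Finset.card_empty, zero_add]
        exact h4.trans (Nat.pow_le_pow_right (by norm_num) (Finset.card_le_card hsub))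
      rcases Finset.eq_empty_or_nonempty ((X w₂).filter (fun x => R.dep x = a)) with h6 | h6
      · rw [h6, Finset.card_empty, add_zero]
        exact h3.trans (Nat.pow_le_pow_right (by norm_num) (Finset.card_le_card hsub))
      · obtain ⟨x, hx⟩ := h5
        obtain ⟨y, hy⟩ := h6
        rw [Finset.mem_filter] at hx hy
        obtain ⟨hx1, hx2⟩ := hX2 _ hw₁ x hx.1
        obtain ⟨hy1, hy2⟩ := hX2 _ hw₂ y hy.1
        have hmem := hA v w₁ w₂ x y hw₁ hw₂ hne12.symm hx1 hy1 hx2 hy2 (hx.2.trans hy.2.symm)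
        rw [hx.2] at hmem
        have hdx := hx1.1
        have hss : A.filter (fun l => 0 < l ∧ l ≤ 2 * (a - (R.dep v + 1))) ⊂
            A.filter (fun l => 0 < l ∧ l ≤ 2 * (a - R.dep v)) := by
          rw [Finset.ssubset_iff_of_subset hsub]
          refine ⟨2 * (a - R.dep v), ?_, ?_⟩
          · rw [Finset.mem_filter]
            exact ⟨hmem, by omega, le_rfl⟩
          · rw [Finset.mem_filter]
            omega
        have h7 := Finset.card_lt_card hss
        calc _ ≤ 2 ^ (A.filter (fun l => 0 < l ∧ l ≤ 2 * (a - (R.dep v + 1)))).card +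
              2 ^ (A.filter (fun l => 0 < l ∧ l ≤ 2 * (a - (R.dep v + 1)))).card := add_le_add h3 h4
          _ = 2 ^ ((A.filter (fun l => 0 < l ∧ l ≤ 2 * (a - (R.dep v + 1)))).card + 1) := by
              rw [pow_succ]; ring
          _ ≤ _ := Nat.pow_le_pow_right (by norm_num) h7
    · rw [Finset.card_union_of_disjoint hdisj]
      have hm : R.m v = 1 + R.m w₁ + ∑ j ∈ (R.ch v).erase w₁, R.m j := by
        unfold m
        rw [R.sum_D _ v, if_neg hleaf, ← Finset.add_sum_erase _ _ hw₁, add_assoc]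
      have hJc : ((R.ch v).erase w₁).card + 1 = R.e v := by
        rw [Finset.card_erase_of_mem hw₁]
        unfold e
        omega
      have hmerge := That_merge ((R.ch v).erase w₁) (K := Kf R.e (R.D v))
        (K₁ := Kf R.e (R.D w₁)) (Kj := fun j => Kf R.e (R.D j)) (Kf_good _ _) (Kf_good _ _)
        (fun j _ => Kf_good _ _) hJne.card_pos (by
          intro δ x y h0 h1 hx hy
          have hs : ∀ g : V → ℝ, (∀ w, 0 ≤ g w) → g v + ∑ w ∈ R.D w₁, g w +
              ∑ j ∈ (R.ch v).erase w₁, ∑ w ∈ R.D j, g w ≤ ∑ w ∈ R.D v, g w := by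
            intro g _
            rw [R.sum_D g v, ← Finset.add_sum_erase _ _ hw₁, add_assoc]
          have := Kf_add R.e v (R.D w₁) ((R.ch v).erase w₁) R.D (R.D v) hs δ x y h0 h1 hx hy
          have h3 : ((((R.ch v).erase w₁).card : ℕ) : ℝ) + 1 = (R.e v : ℝ) := by
            rw [← hJc]; push_cast; ring
          rw [h3]
          exact this)
        (((X w₂).card : ℝ) - 1) (by
          have : 1 ≤ (X w₂).card := (hX1 _ hw₂).card_pos
          have : (1 : ℝ) ≤ (X w₂).card := by exact_mod_cast this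
          linarith)
        (((X w₁).card : ℝ) - 1) (by
          have : (X w₂).card ≤ (X w₁).card := hmax₁ w₂ hw₂
          have : ((X w₂).card : ℝ) ≤ (X w₁).card := by exact_mod_cast this
          linarith)
      rw [hm]
      have h8 : (((X w₁).card + (X w₂).card : ℕ) : ℝ) - 1 =
          1 + (((X w₁).card : ℝ) - 1) + (((X w₂).card : ℝ) - 1) := by
        push_cast; ring
      rw [h8]
      refine le_trans ?_ hmerge
      have h9 := hX4 w₁ hw₁
      have h10 : ∑ j ∈ (R.ch v).erase w₁, R.m j ≤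
          ∑ j ∈ (R.ch v).erase w₁, That (Kf R.e (R.D j)) (((X w₂).card : ℝ) - 1) := by
        apply Finset.sum_le_sum
        intro j hj
        have hj' : j ∈ R.ch v := Finset.mem_of_mem_erase hj
        refine (hX4 j hj').trans ?_
        apply That_mono (Kf_good _ _)
        · have : 1 ≤ (X j).card := (hX1 _ hj').card_pos
          have : (1 : ℝ) ≤ (X j).card := by exact_mod_cast this
          linarith
        · have : (X j).card ≤ (X w₂).card := hmax₂ j hj
          have : ((X j).card : ℝ) ≤ (X w₂).card := by exact_mod_cast this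
          linarith
      linarith

end RT

end Pool.Agent.LeafPaths
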