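import Pool.Agent.LeafPaths.Binary

/-!
# Rooting at a centre and counting leaves of binary subtrees
-/

namespace Pool.Agent.LeafPaths

open Finset SimpleGraph

lemma geom_aux : ∀ (D : Finset ℕ) (M : ℕ), D.card ≤ M →
    ∑ a ∈ D, 2 ^ (M - (D.filter (a ≤ ·)).card) + 2 ^ (M - D.card) ≤ 2 ^ M := by
  intro D
  induction D using Finset.induction_on_min with
  | empty => intro M _; simp
  | insert a s hlt ih =>
    intro M hM
    have ha : a ∉ s := fun h => lt_irrefl _ (hlt a h)
    rw [Finset.card_insert_of_notMem ha] at hM ⊢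
    rw [Finset.sum_insert ha]
    have h1 : (insert a s).filter (a ≤ ·) = insert a s := by
      apply Finset.filter_true_of_mem
      intro x hx
      rw [Finset.mem_insert] at hx
      rcases hx with rfl | hx
      · exact le_rfl
      · exact (hlt x hx).le
    have h2 : ∀ b ∈ s, (insert a s).filter (b ≤ ·) = s.filter (b ≤ ·) := by
      intro b hb
      rw [Finset.filter_insert, if_neg (not_le.2 (hlt b hb))]
    rw [h1, Finset.card_insert_of_notMem ha]
    have h3 : ∑ x ∈ s, 2 ^ (M - ((insert a s).filter (x ≤ ·)).card) =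
        ∑ x ∈ s, 2 ^ (M - (s.filter (x ≤ ·)).card) :=
      Finset.sum_congr rfl fun b hb => by rw [h2 b hb]
    rw [h3]
    have h4 := ih M (by omega)
    have h5 : 2 ^ (M - s.card) = 2 ^ (M - (s.card + 1)) + 2 ^ (M - (s.card + 1)) := by
      have : M - s.card = (M - (s.card + 1)) + 1 := by omega
      rw [this, pow_succ]
      ring
    omega

lemma card_bound {V : Type*} [DecidableEq V] (dep : V → ℕ) (A : Finset ℕ) (h0 : 0 ∈ A)
    (X : Finset V) (g : ℕ)
    (hX : ∀ a, (X.filter (fun x => dep x = a)).card ≤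
      2 ^ (A.filter (fun l => 0 < l ∧ l ≤ 2 * (a - 1))).card)
    (hg : ∀ x ∈ X, dep x + g ∈ A) (hg' : ∀ x ∈ X, dep x ≤ g + 1) (hpos : ∀ x ∈ X, 1 ≤ dep x) :
    X.card + 1 ≤ 2 ^ (A.card - 1) := by
  set D := X.image dep with hD
  have h1 : X.card = ∑ a ∈ D, (X.filter (fun x => dep x = a)).card :=
    Finset.card_eq_sum_card_image dep X
  have h2 : ∀ a ∈ D, (A.filter (fun l => 0 < l ∧ l ≤ 2 * (a - 1))).card +
      (D.filter (a ≤ ·)).card + 1 ≤ A.card := by
    intro a ha
    have h3 : (A.filter (fun l => 0 < l ∧ l ≤ 2 * (a - 1))) ∪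
        (D.filter (a ≤ ·)).image (· + g) ∪ {0} ⊆ A := by
      intro l hl
      rw [Finset.mem_union, Finset.mem_union, Finset.mem_singleton, Finset.mem_image] at hl
      rcases hl with (hl | ⟨b, hb, rfl⟩) | rfl
      · exact (Finset.mem_filter.1 hl).1
      · rw [Finset.mem_filter, hD, Finset.mem_image] at hb
        obtain ⟨⟨x, hx, rfl⟩, _⟩ := hb
        exact hg x hx
      · exact h0
    have h4 := Finset.card_le_card h3
    rw [hD, Finset.mem_image] at ha
    obtain ⟨x, hx, hxa⟩ := ha
    have h5 := hg' x hx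
    have h6 := hpos x hx
    rw [Finset.card_union_of_disjoint, Finset.card_union_of_disjoint,
      Finset.card_image_of_injective _ (add_left_injective g), Finset.card_singleton] at h4
    · exact h4
    · rw [Finset.disjoint_left]
      intro l hl hl'
      rw [Finset.mem_filter] at hl
      rw [Finset.mem_image] at hl'
      obtain ⟨b, hb, rfl⟩ := hl'
      rw [Finset.mem_filter] at hb
      omega
    · rw [Finset.disjoint_left]
      intro l hl hl'
      rw [Finset.mem_singleton] at hl'
      subst hl'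
      rw [Finset.mem_union, Finset.mem_filter, Finset.mem_image] at hl
      rcases hl with hl | ⟨b, hb, hb'⟩
      · omega
      · rw [Finset.mem_filter] at hb
        omega
  rcases X.eq_empty_or_nonempty with hXe | ⟨x, hx⟩
  · rw [hXe, Finset.card_empty, zero_add]
    exact Nat.one_le_two_pow
  have hDc : D.card ≤ A.card - 1 := by
    have hDne : D.Nonempty := ⟨dep x, Finset.mem_image_of_mem _ hx⟩
    have h3 := h2 (D.min' hDne) (D.min'_mem _)
    have h4 : D.filter (D.min' hDne ≤ ·) = D :=
      Finset.filter_true_of_mem fun y hy => D.min'_le y hy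
    rw [h4] at h3
    omega
  have h3 := geom_aux D (A.card - 1) hDc
  have h4 : X.card ≤ ∑ a ∈ D, 2 ^ (A.card - 1 - (D.filter (a ≤ ·)).card) := by
    rw [h1]
    apply Finset.sum_le_sum
    intro a ha
    refine (hX a).trans (Nat.pow_le_pow_right (by norm_num) ?_)
    have := h2 a ha
    omega
  have h5 : 1 ≤ 2 ^ (A.card - 1 - D.card) := Nat.one_le_two_pow
  omega

/-- the set of lengths of leaf-to-leaf paths -/
def lengths {V : Type*} (T : SimpleGraph V) : Set ℕ :=
  {l | ∃ (x y : V) (p : T.Walk x y), (T.neighborSet x).ncard ≤ 1 ∧ (T.neighborSet y).ncard ≤ 1 ∧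
    p.IsPath ∧ p.length = l}

lemma lengths_finite {V : Type*} [Fintype V] (T : SimpleGraph V) : (lengths T).Finite := by
  apply (Set.finite_Iio (Fintype.card V)).subset
  rintro l ⟨x, y, p, -, -, hp, rfl⟩
  exact hp.length_lt

lemma exists_center {V : Type*} [Fintype V] [DecidableEq V] {T : SimpleGraph V} (hT : T.IsTree) :
    ∃ R : RT V, R.graph = T ∧ ∀ w ∈ R.ch R.root, ∃ y, ¬ R.Below w y ∧
      (T.neighborSet y).ncard ≤ 1 ∧ ∀ x, R.Below w x → R.dep x ≤ R.dep y + 1 := by
  classical
  have hne : Nonempty V := hT.connected.nonempty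
  obtain ⟨c, -, hc⟩ := Finset.exists_min_image (univ : Finset V)
    (fun c => univ.sup (fun x => T.dist c x)) Finset.univ_nonempty
  obtain ⟨R, hroot, hgraph, hdep⟩ := exists_rooted hT c
  refine ⟨R, hgraph, ?_⟩
  intro w hw
  have hrootmem : R.root ∈ univ.filter (fun u => ¬ R.Below w u) := by
    rw [Finset.mem_filter]
    exact ⟨Finset.mem_univ _, R.not_below_ch hw⟩
  obtain ⟨y, hy, hymax⟩ := Finset.exists_max_image (univ.filter (fun u => ¬ R.Below w u)) R.dep
    ⟨_, hrootmem⟩
  rw [Finset.mem_filter] at hy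
  have hymax' : ∀ u, ¬ R.Below w u → R.dep u ≤ R.dep y := fun u hu =>
    hymax u (Finset.mem_filter.2 ⟨Finset.mem_univ _, hu⟩)
  have hdw := R.dep_ch hw
  have hch : ∀ z ∈ R.ch y, z = w ∧ y = R.root := by
    intro z hz
    have h1 := R.dep_ch hz
    have h2 : R.Below w z := by
      by_contra h
      have := hymax' z h
      omega
    have h3 : w = z := by
      by_contra hne
      obtain ⟨z', hz', hzz⟩ := R.exists_ch h2 hne
      -- then `w` is above the parent of `z`, which is `y`
      apply hy.2
      obtain ⟨h4, h5⟩ := h2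
      have h6 : R.dep w < R.dep z := by
        have := R.dep_ch hz'
        have := hzz.1
        omega
      refine ⟨by omega, ?_⟩
      have h7 : R.dep z - R.dep w = (R.dep y - R.dep w) + 1 := by omega
      rw [h7, Function.iterate_succ_apply, (R.mem_ch.1 hz).2] at h5
      exact h5
    subst h3
    exact ⟨rfl, (R.mem_ch.1 hz).2.symm.trans (R.mem_ch.1 hw).2⟩
  refine ⟨y, hy.2, ?_, ?_⟩
  · rw [← hgraph, R.degree_eq]
    by_cases hyr : y = R.root
    · rw [if_pos hyr, add_zero, Finset.card_le_one]
      intro a ha b hb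
      rw [(hch a ha).1, (hch b hb).1]
    · have : R.ch y = ∅ := by
        rw [Finset.eq_empty_iff_forall_notMem]
        intro z hz
        exact hyr (hch z hz).2
      rw [this, if_neg hyr]
      simp
  · intro x hx
    by_contra hcon
    push Not at hcon
    have h1 : R.dep x ≤ univ.sup (fun x => T.dist c x) := by
      rw [hdep]
      exact Finset.le_sup (f := fun x => T.dist c x) (Finset.mem_univ x)
    have h2 := hc w (Finset.mem_univ _)
    have h3 : univ.sup (fun x => T.dist w x) ≤ univ.sup (fun x => T.dist c x) - 1 := by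
      apply Finset.sup_le
      intro u _
      rw [R.dep_root] at hdw
      by_cases hu : R.Below w u
      · obtain ⟨p, -, hl, -⟩ := R.exists_down hu
        have h4 : R.graph.dist w u ≤ R.dep u - R.dep w := hl ▸ dist_le p
        rw [hgraph] at h4
        have h5 : R.dep u ≤ univ.sup (fun x => T.dist c x) := by
          rw [hdep]
          exact Finset.le_sup (f := fun x => T.dist c x) (Finset.mem_univ u)
        omega
      · have h4 := hymax' u hu
        have h5 : T.dist w u ≤ T.dist w c + T.dist c u := hT.connected.dist_triangle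
        have h6 : T.dist w c = 1 := by
          rw [dist_eq_one_iff_adj, ← hgraph, ← hroot]
          exact (R.adj_of_ch hw).symm
        rw [← hdep u] at h5
        omega
    omega

/-- The main capacity estimate. -/
lemma exists_capacity {V : Type*} [Fintype V] [DecidableEq V] {T : SimpleGraph V}
    (hT : T.IsTree) (h2 : ∀ v, (T.neighborSet v).ncard ≠ 2) :
    ∃ R : RT V, R.graph = T ∧ ∀ w ∈ R.ch R.root, 1 ≤ (lengths T).ncard ∧
      R.m w ≤ That (Kf R.e (R.D w)) (2 ^ ((lengths T).ncard - 1) - 1) := by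
  classical
  obtain ⟨R, hgraph, hcen⟩ := exists_center hT
  refine ⟨R, hgraph, ?_⟩
  set A : Finset ℕ := (lengths_finite T).toFinset with hA
  have hAcard : (lengths T).ncard = A.card := by
    rw [hA, Set.ncard_eq_toFinset_card _ (lengths_finite T)]
  have hmemA : ∀ l, l ∈ A ↔ l ∈ lengths T := fun l => by simp [hA]
  have hleaf : ∀ x, R.ch x = ∅ → (T.neighborSet x).ncard ≤ 1 := by
    intro x hx
    rw [← hgraph, R.degree_eq, hx]
    split_ifs <;> simp
  have hbin := R.exists_binary A (by
      intro v hv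
      have h3 := h2 v
      rw [← hgraph, R.degree_eq, if_neg hv] at h3
      omega) (by
      intro v w w' x y hw hw' hne hx hy hcx hcy hd
      rw [hmemA]
      obtain ⟨p, hp, hl⟩ := R.exists_cross hw hw' hne hx hy
      rw [← hgraph]
      refine ⟨x, y, p, ?_, ?_, hp, ?_⟩
      · rw [hgraph]; exact hleaf x hcx
      · rw [hgraph]; exact hleaf y hcy
      · rw [hl, hd]; ring)
  intro w hw
  have hwr : w ≠ R.root := (R.mem_ch.1 hw).1
  obtain ⟨X, hX1, hX2, hX3, hX4⟩ := hbin w hwr
  have hdw := R.dep_ch hw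
  rw [R.dep_root, zero_add] at hdw
  rw [hdw] at hX3
  obtain ⟨y, hy1, hy2, hy3⟩ := hcen w hw
  have h0A : 0 ∈ A := by
    obtain ⟨x, hx⟩ := hX1
    rw [hmemA]
    exact ⟨x, x, Walk.nil, hleaf x (hX2 x hx).2, hleaf x (hX2 x hx).2, Walk.IsPath.nil, rfl⟩
  have hcard : X.card + 1 ≤ 2 ^ (A.card - 1) := by
    apply card_bound R.dep A h0A X (R.dep y) hX3
    · intro x hx
      obtain ⟨hx1, hx2⟩ := hX2 x hx
      rw [hmemA, ← hgraph]
      by_cases hyr : R.root = y
      · obtain ⟨p, hp, hl⟩ := R.exists_up (R.below_root x)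
        refine ⟨x, R.root, p, ?_, ?_, hp, ?_⟩
        · rw [hgraph]; exact hleaf x hx2
        · rw [hgraph, hyr]; exact hy2
        · rw [hl, ← hyr, R.dep_root]; omega
      · obtain ⟨w', hw', hwy⟩ := R.exists_ch (R.below_root y) hyr
        have hne : w ≠ w' := by
          rintro rfl
          exact hy1 hwy
        obtain ⟨p, hp, hl⟩ := R.exists_cross hw hw' hne hx1 hwy
        refine ⟨x, y, p, ?_, ?_, hp, ?_⟩
        · rw [hgraph]; exact hleaf x hx2
        · rw [hgraph]; exact hy2
        · rw [hl, R.dep_root]; omega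
    · intro x hx
      exact hy3 x (hX2 x hx).1
    · intro x hx
      have := (hX2 x hx).1.1
      omega
  refine ⟨?_, hX4.trans (That_mono (Kf_good _ _) _ ?_ _ ?_)⟩
  · rw [hAcard]
    exact Finset.card_pos.2 ⟨0, h0A⟩
  · have : 1 ≤ X.card := hX1.card_pos
    have : (1 : ℝ) ≤ X.card := by exact_mod_cast this
    linarith
  · rw [hAcard]
    have : ((X.card + 1 : ℕ) : ℝ) ≤ ((2 ^ (A.card - 1) : ℕ) : ℝ) := by exact_mod_cast hcard
    push_cast at this
    linarith

end Pool.Agent.LeafPaths
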