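import Pool.Agent.LeafPaths.Greedy

/-!
# Assembling the proof
-/

namespace Pool.Agent.LeafPaths

open Finset SimpleGraph

lemma That_step {K : ℝ → ℝ} (hK : Good K) (i : ℕ) :
    That K (2 ^ (i + 1) - 1) ≤ 1 + K (That K (2 ^ i - 1)) := by
  rcases Nat.eq_zero_or_pos i with h | h
  · subst h
    have h1 : (2 : ℝ) ^ (0 + 1) - 1 = 1 := by norm_num
    have h2 : (2 : ℝ) ^ 0 - 1 = 0 := by norm_num
    rw [h1, h2, That_le le_rfl, That_le zero_le_one]
    have := hK.nonneg 0 le_rfl
    linarith
  · have h1 : (2 : ℝ) ≤ 2 ^ i := by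
      calc (2 : ℝ) = 2 ^ 1 := by norm_num
        _ ≤ 2 ^ i := pow_le_pow_right₀ (by norm_num) h
    have h2 : (1 : ℝ) < 2 ^ (i + 1) - 1 := by
      rw [pow_succ]; linarith
    rw [That_gt h2]
    have h3 : ((2 : ℝ) ^ (i + 1) - 1 - 1) / 2 = 2 ^ i - 1 := by
      rw [pow_succ]; ring
    rw [h3]

lemma Kf_reindex {V W : Type*} (e : V → ℕ) (e' : W → ℕ) (s : Finset V) (s' : Finset W)
    (h : ∀ θ : ℝ, ∑ v ∈ s, max ((e v : ℝ) - θ) 0 = ∑ v ∈ s', max ((e' v : ℝ) - θ) 0) (t : ℝ) :
    Kf e s t = Kf e' s' t := by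
  unfold Kf kterm
  simp only [h]

/-- a breadth-first ordering of the vertices -/
lemma exists_order {n : ℕ} (R : RT (Fin n)) : ∃ σ : Equiv.Perm (Fin n),
    (∀ j : Fin n, (j : ℕ) = 0 → σ j = R.root) ∧
    ∀ i j : Fin n, 1 ≤ (i : ℕ) → i ≤ j → R.e (σ j) ≤ R.e (σ i) := by
  have hen : ∀ v, R.e v ≤ n := fun v => by
    have := Finset.card_le_univ (R.ch v)
    rwa [Fintype.card_fin] at this
  obtain ⟨key, hkey⟩ : ∃ key : Fin n → ℕ, ∀ v, key v = if v = R.root then 0 else 1 + n - R.e v :=
    ⟨_, fun _ => rfl⟩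
  have hmono := Tuple.monotone_sort key
  have h0 : ∀ j : Fin n, (j : ℕ) = 0 → Tuple.sort key j = R.root := by
    intro j hj
    have h1 : j ≤ (Tuple.sort key).symm R.root := by
      rw [Fin.le_iff_val_le_val, hj]; omega
    have h2 := hmono h1
    simp only [Function.comp_apply, Equiv.apply_symm_apply] at h2
    by_contra hne
    rw [hkey, hkey, if_neg hne, if_pos rfl] at h2
    have := hen (Tuple.sort key j)
    omega
  refine ⟨Tuple.sort key, h0, ?_⟩
  intro i j hi hij
  have hj : 1 ≤ (j : ℕ) := hi.trans hij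
  have hne : ∀ l : Fin n, 1 ≤ (l : ℕ) → Tuple.sort key l ≠ R.root := by
    intro l hl heq
    have h1 := h0 ⟨0, by have := l.2; omega⟩ rfl
    have h2 := (Tuple.sort key).injective (heq.trans h1.symm)
    rw [h2] at hl
    simp at hl
  have h2 := hmono hij
  simp only [Function.comp_apply] at h2
  rw [hkey, hkey, if_neg (hne i hi), if_neg (hne j hj)] at h2
  have := hen (Tuple.sort key i)
  have := hen (Tuple.sort key j)
  omega

/-- Main theorem in terms of distances from a root. -/
theorem main {n : ℕ} (hn : 2 ≤ n) {T : SimpleGraph (Fin n)} (hT : T.IsTree)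
    (h2 : ∀ v, (T.neighborSet v).ncard ≠ 2) :
    ∃ T' : SimpleGraph (Fin n), T'.IsTree ∧
      (∃ σ : Equiv.Perm (Fin n), ∀ v, (T'.neighborSet v).ncard = (T.neighborSet (σ v)).ncard) ∧
      ∃ c, ∀ v, T'.edist c v ≤ (lengths T).ncard := by
  classical
  obtain ⟨R, hgraph, hcap⟩ := exists_capacity hT h2
  obtain ⟨σ, hσ0, hσ⟩ := exists_order R
  -- the root has a child
  obtain ⟨w₀, hw₀⟩ : (R.ch R.root).Nonempty := by
    have : Nontrivial (Fin n) := Fin.nontrivial_iff_two_le.2 hn
    obtain ⟨v, hv⟩ := exists_ne R.root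
    obtain ⟨w, hw, -⟩ := R.exists_ch (R.below_root v) hv.symm
    exact ⟨w, hw⟩
  set k := (lengths T).ncard with hk
  have hk1 : 1 ≤ k := (hcap w₀ hw₀).1
  -- the sequence
  let f : ℕ → ℕ := fun j => if h : j < n then R.e (σ ⟨j, h⟩) else 0
  have hf : ∀ j : Fin n, f j = R.e (σ j) := fun j => by simp [f]
  have hsumf : ∀ g : ℕ → ℝ, ∑ j ∈ Finset.range n, g (f j) = ∑ v, g (R.e v) := by
    intro g
    rw [Finset.sum_range (fun j => g (f j))]
    rw [← Equiv.sum_comp σ (fun v => g (R.e v))]
    exact Finset.sum_congr rfl fun j _ => by rw [hf]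
  have hroot0 : σ ⟨0, by omega⟩ = R.root := hσ0 _ rfl
  have hf0 : f 0 = R.e R.root := by
    have := hf ⟨0, by omega⟩
    rw [hroot0] at this
    exact this
  have S : Seq n f := by
    refine ⟨?_, ?_, ?_, ?_, hn⟩
    · intro i j hi hij
      by_cases hj : j < n
      · have h3 : i < n := by omega
        have h4 := hσ ⟨i, h3⟩ ⟨j, hj⟩ hi hij
        simpa [f, hj, h3] using h4
      · simp [f, hj]
    · intro j hj
      simp [f, not_lt.2 hj]
    · have h3 := hsumf (fun x => (x : ℝ))
      have h4 : ∑ v, R.e v = n - 1 := by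
        have := R.sum_ch
        rw [Fintype.card_fin] at this
        exact this
      have h5 : ((E f n : ℕ) : ℝ) = ((n - 1 : ℕ) : ℝ) := by
        rw [← h4]
        unfold E
        push_cast
        exact h3
      exact_mod_cast h5
    · rw [hf0]
      exact Finset.card_pos.2 ⟨w₀, hw₀⟩
  have hDroot : R.D R.root = univ := by
    ext v
    simp [RT.mem_D, R.below_root v]
  -- sums over non-root vertices
  have hsum_root : ∀ g : Fin n → ℝ, ∑ w ∈ R.ch R.root, ∑ u ∈ R.D w, g u =
      ∑ u ∈ univ.erase R.root, g u := by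
    intro g
    have h3 := R.sum_D g R.root
    rw [hDroot, ← Finset.add_sum_erase _ _ (Finset.mem_univ R.root)] at h3
    linarith
  have hsum_Ico : ∀ g : ℕ → ℝ, ∑ u ∈ univ.erase R.root, g (R.e u) =
      ∑ j ∈ Finset.Ico 1 n, g (f j) := by
    intro g
    have h3 := hsumf g
    rw [← Finset.add_sum_erase _ _ (Finset.mem_univ R.root)] at h3
    have h4 : ∑ j ∈ Finset.range n, g (f j) = g (f 0) + ∑ j ∈ Finset.Ico 1 n, g (f j) := by
      rw [Finset.range_eq_Ico, Finset.sum_eq_sum_Ico_succ_bot (by omega)]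
    rw [h4, hf0] at h3
    linarith
  -- capacity
  have hcapacity : ∀ i, ∑ w ∈ R.ch R.root, That (Kf R.e (R.D w)) (2 ^ i - 1) ≤
      (Seq.lev f i : ℝ) - 1 := by
    intro i
    induction i with
    | zero =>
      have h3 : (2 : ℝ) ^ 0 - 1 = 0 := by norm_num
      rw [h3]
      have h4 : ∑ w ∈ R.ch R.root, That (Kf R.e (R.D w)) 0 = 0 :=
        Finset.sum_eq_zero fun w _ => That_le zero_le_one
      rw [h4]
      simp [Seq.lev]
    | succ i ih =>
      have hlev1 : 1 ≤ Seq.lev f i := by cases i <;> simp [Seq.lev]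
      have h0 : ∀ w ∈ R.ch R.root, 0 ≤ That (Kf R.e (R.D w)) (2 ^ i - 1) := by
        intro w _
        apply That_nonneg (Kf_good _ _)
        have : (1 : ℝ) ≤ 2 ^ i := one_le_pow₀ (by norm_num)
        linarith
      calc ∑ w ∈ R.ch R.root, That (Kf R.e (R.D w)) (2 ^ (i + 1) - 1)
          ≤ ∑ w ∈ R.ch R.root, (1 + Kf R.e (R.D w) (That (Kf R.e (R.D w)) (2 ^ i - 1))) :=
            Finset.sum_le_sum fun w _ => That_step (Kf_good _ _) i
        _ = f 0 + ∑ w ∈ R.ch R.root, Kf R.e (R.D w) (That (Kf R.e (R.D w)) (2 ^ i - 1)) := by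
            rw [Finset.sum_add_distrib, Finset.sum_const, nsmul_eq_mul, mul_one, hf0]
            rfl
        _ ≤ f 0 + Kf R.e (univ.erase R.root)
              (∑ w ∈ R.ch R.root, That (Kf R.e (R.D w)) (2 ^ i - 1)) := by
            have := Kf_sum R.e (R.ch R.root) R.D (univ.erase R.root)
              (fun g _ => (hsum_root g).le) (fun w => That (Kf R.e (R.D w)) (2 ^ i - 1)) h0
            linarith
        _ ≤ f 0 + Kf R.e (univ.erase R.root) ((Seq.lev f i : ℝ) - 1) := by
            have := (Kf_good R.e (univ.erase R.root)).mono _ _ (Finset.sum_nonneg h0) ih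
            linarith
        _ = f 0 + Kf f (Finset.Ico 1 n) (((Seq.lev f i - 1 : ℕ) : ℝ)) := by
            rw [Kf_reindex R.e f (univ.erase R.root) (Finset.Ico 1 n)
              (fun θ => hsum_Ico (fun x => max ((x : ℝ) - θ) 0))]
            rw [Nat.cast_sub hlev1, Nat.cast_one]
        _ ≤ f 0 + ((∑ j ∈ Finset.Ico 1 (Seq.lev f i - 1 + 1), f j : ℕ) : ℝ) := by
            have := Kf_le_top f S.anti n (Seq.lev f i - 1)
            linarith
        _ = ((E f (Seq.lev f i) : ℕ) : ℝ) := by
            rw [show Seq.lev f i - 1 + 1 = Seq.lev f i by omega]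
            rw [← Nat.cast_add]
            congr 1
            unfold E
            rw [Finset.range_eq_Ico, Finset.sum_eq_sum_Ico_succ_bot (a := 0) (by omega)]
        _ = _ := by
            simp only [Seq.lev]
            push_cast
            ring
  -- the number of internal vertices
  set M : ℕ := ((Finset.Ico 1 n).filter (fun j => f j ≠ 0)).card with hM
  have hMle : M + 1 ≤ Seq.lev f (k - 1) := by
    have h3 : (M : ℝ) = ∑ w ∈ R.ch R.root, R.m w := by
      unfold RT.m
      rw [hsum_root (fun u => if R.ch u = ∅ then (0 : ℝ) else 1)]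
      have h4 : ∀ u, (if R.ch u = ∅ then (0 : ℝ) else 1) =
          (fun x : ℕ => if x ≠ 0 then (1 : ℝ) else 0) (R.e u) := by
        intro u
        by_cases h : R.ch u = ∅
        · simp [RT.e, h]
        · simp [RT.e, h]
      rw [Finset.sum_congr rfl (fun u _ => h4 u),
        hsum_Ico (fun x : ℕ => if x ≠ 0 then (1 : ℝ) else 0), hM, Finset.card_filter]
      push_cast
      rfl
    have h4 : (M : ℝ) ≤ (Seq.lev f (k - 1) : ℝ) - 1 := by
      rw [h3]
      exact (Finset.sum_le_sum fun w hw => (hcap w hw).2).trans (hcapacity (k - 1))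
    have h5 : ((M + 1 : ℕ) : ℝ) ≤ ((Seq.lev f (k - 1) : ℕ) : ℝ) := by
      push_cast
      linarith
    exact_mod_cast h5
  have hfzero : ∀ j, M + 1 ≤ j → f j = 0 := by
    intro j hj
    by_contra hne
    have hjn : j < n := by
      by_contra h
      exact hne (S.zero j (by omega))
    have hsub : Finset.Ico 1 (j + 1) ⊆ (Finset.Ico 1 n).filter (fun j => f j ≠ 0) := by
      intro i hi
      rw [Finset.mem_Ico] at hi
      rw [Finset.mem_filter, Finset.mem_Ico]
      have := S.anti i j hi.1 (by omega)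
      exact ⟨⟨hi.1, by omega⟩, by omega⟩
    have := Finset.card_le_card hsub
    rw [Nat.card_Ico, ← hM] at this
    omega
  have hlevk : n ≤ Seq.lev f k := by
    have h3 : Seq.lev f k = 1 + E f (Seq.lev f (k - 1)) := by
      conv_lhs => rw [show k = (k - 1) + 1 by omega]
      rfl
    have h4 : E f n ≤ E f (Seq.lev f (k - 1)) := by
      rcases le_total n (Seq.lev f (k - 1)) with h | h
      · exact E_mono f h
      · unfold E
        rw [← Finset.sum_range_add_sum_Ico _ h,
          Finset.sum_eq_zero (s := Finset.Ico (Seq.lev f (k - 1)) n)]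
        · simp
        · intro i hi
          exact hfzero i (hMle.trans (Finset.mem_Ico.1 hi).1)
    rw [S.total] at h4
    omega
  refine ⟨S.tree.graph, S.tree.isTree, ⟨σ, ?_⟩, S.tree.root, ?_⟩
  · intro v
    rw [S.tree.degree_eq, S.tree_card_ch, ← hgraph, R.degree_eq, hf]
    unfold RT.e
    congr 1
    have h3 : v = S.tree.root ↔ σ v = R.root := by
      constructor
      · rintro rfl
        exact hroot0
      · intro h
        rw [← hroot0] at h
        exact σ.injective h
    simp only [h3]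
  · intro v
    obtain ⟨p, -, hl, -⟩ := S.tree.exists_down (S.tree.below_root v)
    have h3 := S.dep_le k v (lt_of_lt_of_le v.2 hlevk)
    refine (edist_le p).trans ?_
    rw [hl]
    have h4 : S.tree.dep v ≤ k := h3
    exact_mod_cast (Nat.sub_le _ _).trans h4

end Pool.Agent.LeafPaths
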