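import Pool.Agent.LeafPaths.Center

/-!
# The greedy (breadth-first) tree
-/

namespace Pool.Agent.LeafPaths

open Finset SimpleGraph

/-- partial sums -/
def E (f : ℕ → ℕ) (p : ℕ) : ℕ := ∑ j ∈ Finset.range p, f j

lemma E_succ (f : ℕ → ℕ) (p : ℕ) : E f (p + 1) = E f p + f p := Finset.sum_range_succ f p

lemma E_mono (f : ℕ → ℕ) {p q : ℕ} (h : p ≤ q) : E f p ≤ E f q :=
  Finset.sum_le_sum_of_subset_of_nonneg (Finset.range_mono h) (fun _ _ _ => Nat.zero_le _)

/-- parent in the breadth-first order -/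
noncomputable def gpar (f : ℕ → ℕ) (p : ℕ) : ℕ := sInf {q | p ≤ E f (q + 1)}

lemma gpar_le {f : ℕ → ℕ} {p q : ℕ} (h : p ≤ E f (q + 1)) : gpar f p ≤ q := Nat.sInf_le h

lemma gpar_iff {f : ℕ → ℕ} {p q : ℕ} (hp : 1 ≤ p) (hex : ∃ q, p ≤ E f (q + 1)) :
    gpar f p = q ↔ E f q < p ∧ p ≤ E f (q + 1) := by
  constructor
  · rintro rfl
    have h1 : gpar f p ∈ {q | p ≤ E f (q + 1)} := Nat.sInf_mem hex
    refine ⟨?_, h1⟩
    by_contra h
    push Not at h
    rcases Nat.eq_zero_or_pos (gpar f p) with h0 | h0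
    · rw [h0] at h
      simp [E] at h
      omega
    · obtain ⟨q, hq⟩ : ∃ q, gpar f p = q + 1 := ⟨gpar f p - 1, by omega⟩
      rw [hq] at h
      have := gpar_le h
      omega
  · rintro ⟨h1, h2⟩
    apply le_antisymm (gpar_le h2)
    by_contra h
    push Not at h
    have h3 : gpar f p ∈ {q | p ≤ E f (q + 1)} := Nat.sInf_mem hex
    have h4 : E f (gpar f p + 1) ≤ E f q := E_mono f h
    have h5 : p ≤ E f (gpar f p + 1) := h3
    omega

/-- depth from a parent function -/
def depOf (par : ℕ → ℕ) (h : ∀ p, 1 ≤ p → par p < p) : ℕ → ℕ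
  | 0 => 0
  | (p + 1) => depOf par h (par (p + 1)) + 1
termination_by p => p
decreasing_by exact h _ (by omega)

lemma depOf_zero (par : ℕ → ℕ) (h : ∀ p, 1 ≤ p → par p < p) : depOf par h 0 = 0 := by
  rw [depOf]

lemma depOf_pos (par : ℕ → ℕ) (h : ∀ p, 1 ≤ p → par p < p) {p : ℕ} (hp : 1 ≤ p) :
    depOf par h p = depOf par h (par p) + 1 := by
  obtain ⟨q, rfl⟩ : ∃ q, p = q + 1 := ⟨p - 1, by omega⟩
  rw [depOf]

/-- hypotheses on a child-number sequence -/
structure Seq (n : ℕ) (f : ℕ → ℕ) : Prop where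
  anti : ∀ i j, 1 ≤ i → i ≤ j → f j ≤ f i
  zero : ∀ j, n ≤ j → f j = 0
  total : E f n = n - 1
  f0 : 1 ≤ f 0
  hn : 2 ≤ n

namespace Seq

variable {n : ℕ} {f : ℕ → ℕ} (S : Seq n f)
include S

lemma E_le (p : ℕ) : E f p ≤ n - 1 := by
  rcases le_total p n with h | h
  · exact (E_mono f h).trans S.total.le
  · have : E f p = E f n := by
      unfold E
      rw [← Finset.sum_range_add_sum_Ico _ h, Finset.sum_eq_zero (s := Finset.Ico n p), add_zero]
      intro i hi
      exact S.zero i (Finset.mem_Ico.1 hi).1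
    rw [this, S.total]

lemma le_E {p : ℕ} (h1 : 1 ≤ p) (h2 : p ≤ n - 1) : p ≤ E f p := by
  by_cases h : ∀ j, j < p → 1 ≤ f j
  · unfold E
    calc p = ∑ j ∈ Finset.range p, 1 := by simp
      _ ≤ _ := Finset.sum_le_sum fun j hj => h j (Finset.mem_range.1 hj)
  · push Not at h
    obtain ⟨j, hj, hj0⟩ := h
    have hj1 : 1 ≤ j := by
      rcases Nat.eq_zero_or_pos j with h0 | h0
      · rw [h0] at hj0
        have := S.f0
        omega
      · exact h0
    have h3 : E f p = E f n := by
      have hpn : p ≤ n := by omega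
      unfold E
      rw [← Finset.sum_range_add_sum_Ico _ hpn, Finset.sum_eq_zero (s := Finset.Ico p n), add_zero]
      intro i hi
      have := S.anti j i hj1 (by have := (Finset.mem_Ico.1 hi).1; omega)
      omega
    rw [h3, S.total]
    exact h2

lemma exists_q {p : ℕ} (h : p ≤ n - 1) : ∃ q, p ≤ E f (q + 1) := by
  refine ⟨n - 1, ?_⟩
  have := S.hn
  rw [show n - 1 + 1 = n by omega, S.total]
  exact h

lemma gpar_lt (p : ℕ) (hp : 1 ≤ p) : gpar f p < p := by
  by_cases h : p ≤ n - 1
  · have h1 := S.le_E hp h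
    have h2 : gpar f p ≤ p - 1 := gpar_le (by rw [show p - 1 + 1 = p by omega]; exact h1)
    omega
  · have : {q | p ≤ E f (q + 1)} = ∅ := by
      rw [Set.eq_empty_iff_forall_notMem]
      intro q hq
      have h1 : p ≤ E f (q + 1) := hq
      have := S.E_le (q + 1)
      omega
    unfold gpar
    rw [this, Nat.sInf_empty]
    exact hp

/-- the greedy tree -/
noncomputable def tree : RT (Fin n) where
  root := ⟨0, by have := S.hn; omega⟩
  par v := ⟨gpar f v % n, Nat.mod_lt _ (by have := S.hn; omega)⟩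
  dep v := depOf (gpar f) S.gpar_lt v
  dep_root := depOf_zero _ _
  dep_par v hv := by
    have h1 : 1 ≤ (v : ℕ) := by
      rcases Nat.eq_zero_or_pos (v : ℕ) with h | h
      · exact absurd (Fin.ext h) hv
      · exact h
    have h2 := S.gpar_lt v h1
    simp only
    rw [Nat.mod_eq_of_lt (h2.trans v.2)]
    exact depOf_pos _ _ h1

lemma tree_par (v : Fin n) (h1 : 1 ≤ (v : ℕ)) : ((S.tree.par v : Fin n) : ℕ) = gpar f v := by
  have h2 := S.gpar_lt v h1
  exact Nat.mod_eq_of_lt (h2.trans v.2)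

lemma tree_card_ch (q : Fin n) : (S.tree.ch q).card = f q := by
  have h1 : (S.tree.ch q).map Fin.valEmbedding = Finset.Ioc (E f q) (E f (q + 1)) := by
    ext p
    rw [Finset.mem_map, Finset.mem_Ioc]
    constructor
    · rintro ⟨v, hv, rfl⟩
      rw [RT.mem_ch] at hv
      have hv1 : 1 ≤ (v : ℕ) := by
        rcases Nat.eq_zero_or_pos (v : ℕ) with h | h
        · exact absurd (Fin.ext h) hv.1
        · exact h
      have h2 := S.tree_par v hv1
      rw [hv.2] at h2
      exact (gpar_iff hv1 (S.exists_q (by omega))).1 h2.symm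
    · rintro ⟨h2, h3⟩
      have h4 := S.E_le (q + 1)
      have h5 := S.hn
      have hp1 : 1 ≤ p := by omega
      refine ⟨⟨p, by omega⟩, ?_, rfl⟩
      rw [RT.mem_ch]
      refine ⟨?_, ?_⟩
      · intro h
        have : p = 0 := congrArg Fin.val h
        omega
      · apply Fin.ext
        rw [S.tree_par _ hp1]
        exact (gpar_iff hp1 (S.exists_q (by omega))).2 ⟨h2, h3⟩
  have h2 := congrArg Finset.card h1
  rw [Finset.card_map, Nat.card_Ioc, E_succ] at h2
  omega

omit S in
/-- number of vertices within a given depth -/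
def lev (f : ℕ → ℕ) : ℕ → ℕ
  | 0 => 1
  | (i + 1) => 1 + E f (lev f i)

lemma dep_le (i : ℕ) : ∀ p, p < lev f i → depOf (gpar f) S.gpar_lt p ≤ i := by
  induction i with
  | zero =>
    intro p hp
    have : p = 0 := by simp only [lev] at hp; omega
    subst this
    rw [depOf_zero]
  | succ i ih =>
    intro p hp
    rcases Nat.eq_zero_or_pos p with h0 | h0
    · subst h0
      rw [depOf_zero]
      omega
    · rw [depOf_pos _ _ h0]
      have h1 : p ≤ E f (lev f i) := by simp only [lev] at hp; omega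
      have h2 : 1 ≤ lev f i := by cases i <;> simp [lev]
      have h3 : gpar f p ≤ lev f i - 1 := gpar_le (by
        rw [show lev f i - 1 + 1 = lev f i by omega]; exact h1)
      have h4 := ih (gpar f p) (by omega)
      omega

end Seq

end Pool.Agent.LeafPaths
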