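import Pool.Agent.LeafPaths.Potential

/-!
# The fractional knapsack function of a finite family of numbers
-/

namespace Pool.Agent.LeafPaths

open Finset
open scoped NNReal

variable {V : Type*}

/-- one term of the dual knapsack bound -/
noncomputable def kterm (e : V → ℕ) (s : Finset V) (θ t : ℝ) : ℝ :=
  θ * t + ∑ v ∈ s, max ((e v : ℝ) - θ) 0

/-- `Kf e s t`: maximum total `e`-value of a fractional selection of `t` elements of `s`
(defined by the dual formula). -/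
noncomputable def Kf (e : V → ℕ) (s : Finset V) (t : ℝ) : ℝ :=
  ⨅ θ : ℝ≥0, kterm e s (θ : ℝ) t

lemma kterm_nonneg {e : V → ℕ} {s : Finset V} {θ t : ℝ} (hθ : 0 ≤ θ) (ht : 0 ≤ t) :
    0 ≤ kterm e s θ t :=
  add_nonneg (mul_nonneg hθ ht) (Finset.sum_nonneg fun _ _ => le_max_right _ _)

lemma Kf_le {e : V → ℕ} {s : Finset V} {t : ℝ} (ht : 0 ≤ t) {θ : ℝ} (hθ : 0 ≤ θ) :
    Kf e s t ≤ kterm e s θ t := by
  have hb : BddBelow (Set.range fun θ : ℝ≥0 => kterm e s (θ : ℝ) t) :=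
    ⟨0, by rintro _ ⟨θ, rfl⟩; exact kterm_nonneg θ.2 ht⟩
  exact ciInf_le hb (⟨θ, hθ⟩ : ℝ≥0)

lemma le_Kf {e : V → ℕ} {s : Finset V} {t a : ℝ} (h : ∀ θ : ℝ, 0 ≤ θ → a ≤ kterm e s θ t) :
    a ≤ Kf e s t :=
  le_ciInf fun θ => h θ θ.2

lemma Kf_good (e : V → ℕ) (s : Finset V) : Good (Kf e s) where
  mono x y hx hxy := by
    apply le_Kf
    intro θ hθ
    refine (Kf_le hx hθ).trans ?_
    unfold kterm
    have := mul_le_mul_of_nonneg_left hxy hθ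
    linarith
  nonneg x hx := le_Kf fun θ hθ => kterm_nonneg hθ hx

lemma single_bound (c : ℕ) {δ θ : ℝ} (h0 : 0 ≤ δ) (h1 : δ ≤ 1) (hθ : 0 ≤ θ) :
    (c : ℝ) * δ ≤ θ * δ + max ((c : ℝ) - θ) 0 := by
  rcases le_total (c : ℝ) θ with h | h
  · have := mul_le_mul_of_nonneg_right h h0
    have h2 := le_max_right ((c : ℝ) - θ) 0
    linarith
  · have h2 := le_max_left ((c : ℝ) - θ) 0
    nlinarith [mul_nonneg (sub_nonneg.2 h) (sub_nonneg.2 h1)]

lemma Kf_add [DecidableEq V] {ι : Type*} (e : V → ℕ) (v : V) (s₁ : Finset V) (J : Finset ι)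
    (sj : ι → Finset V) (s : Finset V)
    (hs : ∀ g : V → ℝ, (∀ w, 0 ≤ g w) → g v + ∑ w ∈ s₁, g w + ∑ j ∈ J, ∑ w ∈ sj j, g w ≤ ∑ w ∈ s, g w)
    (δ x : ℝ) (y : ι → ℝ) (h0 : 0 ≤ δ) (h1 : δ ≤ 1) (hx : 0 ≤ x) (hy : ∀ j ∈ J, 0 ≤ y j) :
    (e v : ℝ) * δ + Kf e s₁ x + ∑ j ∈ J, Kf e (sj j) (y j) ≤ Kf e s (δ + x + ∑ j ∈ J, y j) := by
  apply le_Kf
  intro θ hθ
  have h2 := single_bound (e v) h0 h1 hθ
  have h3 : Kf e s₁ x ≤ _ := Kf_le hx hθ
  have h4 : ∑ j ∈ J, Kf e (sj j) (y j) ≤ ∑ j ∈ J, kterm e (sj j) θ (y j) :=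
    Finset.sum_le_sum fun j hj => Kf_le (hy j hj) hθ
  have h5 := hs (fun w => max ((e w : ℝ) - θ) 0) (fun _ => le_max_right _ _)
  have h6 : ∑ j ∈ J, kterm e (sj j) θ (y j) =
      θ * ∑ j ∈ J, y j + ∑ j ∈ J, ∑ w ∈ sj j, max ((e w : ℝ) - θ) 0 := by
    unfold kterm
    rw [Finset.sum_add_distrib, Finset.mul_sum]
  rw [h6] at h4
  have h7 : kterm e s₁ θ x = θ * x + ∑ w ∈ s₁, max ((e w : ℝ) - θ) 0 := rfl
  rw [h7] at h3
  have h8 : kterm e s θ (δ + x + ∑ j ∈ J, y j) =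
      θ * δ + θ * x + θ * ∑ j ∈ J, y j + ∑ w ∈ s, max ((e w : ℝ) - θ) 0 := by
    unfold kterm; ring
  rw [h8]
  linarith

lemma Kf_sum {ι : Type*} (e : V → ℕ) (J : Finset ι)
    (sj : ι → Finset V) (s : Finset V)
    (hs : ∀ g : V → ℝ, (∀ w, 0 ≤ g w) → ∑ j ∈ J, ∑ w ∈ sj j, g w ≤ ∑ w ∈ s, g w)
    (y : ι → ℝ) (hy : ∀ j ∈ J, 0 ≤ y j) :
    ∑ j ∈ J, Kf e (sj j) (y j) ≤ Kf e s (∑ j ∈ J, y j) := by
  apply le_Kf
  intro θ hθ
  have h4 : ∑ j ∈ J, Kf e (sj j) (y j) ≤ ∑ j ∈ J, kterm e (sj j) θ (y j) :=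
    Finset.sum_le_sum fun j hj => Kf_le (hy j hj) hθ
  have h5 := hs (fun w => max ((e w : ℝ) - θ) 0) (fun _ => le_max_right _ _)
  have h6 : ∑ j ∈ J, kterm e (sj j) θ (y j) =
      θ * ∑ j ∈ J, y j + ∑ j ∈ J, ∑ w ∈ sj j, max ((e w : ℝ) - θ) 0 := by
    unfold kterm
    rw [Finset.sum_add_distrib, Finset.mul_sum]
  rw [h6] at h4
  unfold kterm
  linarith

/-- For an antitone sequence the knapsack function at a natural number is at most the sum of the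
first terms. -/
lemma Kf_le_top (f : ℕ → ℕ) (hf : ∀ i j, 1 ≤ i → i ≤ j → f j ≤ f i) (n u : ℕ) :
    Kf f (Finset.Ico 1 n) (u : ℝ) ≤ ((∑ j ∈ Finset.Ico 1 (u + 1), f j : ℕ) : ℝ) := by
  refine (Kf_le (Nat.cast_nonneg u) (θ := (f (u + 1) : ℝ)) (Nat.cast_nonneg _)).trans ?_
  unfold kterm
  have h1 : ∑ v ∈ Finset.Ico 1 n, max ((f v : ℝ) - f (u + 1)) 0 ≤
      ∑ v ∈ Finset.Ico 1 (u + 1), ((f v : ℝ) - f (u + 1)) := by
    calc ∑ v ∈ Finset.Ico 1 n, max ((f v : ℝ) - f (u + 1)) 0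
        ≤ ∑ v ∈ Finset.Ico 1 (max n (u + 1)), max ((f v : ℝ) - f (u + 1)) 0 := by
          apply Finset.sum_le_sum_of_subset_of_nonneg
          · exact Finset.Ico_subset_Ico_right (le_max_left _ _)
          · intro i _ _; exact le_max_right _ _
      _ = ∑ v ∈ Finset.Ico 1 (u + 1), max ((f v : ℝ) - f (u + 1)) 0 +
          ∑ v ∈ Finset.Ico (u + 1) (max n (u + 1)), max ((f v : ℝ) - f (u + 1)) 0 := by
          rw [Finset.sum_Ico_consecutive _ (by omega) (le_max_right _ _)]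
      _ = ∑ v ∈ Finset.Ico 1 (u + 1), ((f v : ℝ) - f (u + 1)) + 0 := by
          congr 1
          · apply Finset.sum_congr rfl
            intro i hi
            rw [Finset.mem_Ico] at hi
            apply max_eq_left
            have : f (u + 1) ≤ f i := hf i (u + 1) hi.1 (by omega)
            have : (f (u + 1) : ℝ) ≤ f i := by exact_mod_cast this
            linarith
          · apply Finset.sum_eq_zero
            intro i hi
            rw [Finset.mem_Ico] at hi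
            apply max_eq_right
            have : f i ≤ f (u + 1) := hf (u + 1) i (by omega) hi.1
            have : (f i : ℝ) ≤ f (u + 1) := by exact_mod_cast this
            linarith
      _ = _ := by rw [add_zero]
  have h2 : ∑ v ∈ Finset.Ico 1 (u + 1), ((f v : ℝ) - f (u + 1)) =
      ∑ v ∈ Finset.Ico 1 (u + 1), (f v : ℝ) - u * f (u + 1) := by
    rw [Finset.sum_sub_distrib, Finset.sum_const, Nat.card_Ico, nsmul_eq_mul]
    simp
  rw [h2] at h1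
  push_cast
  linarith

end Pool.Agent.LeafPaths
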