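import Mathlib

/-!
# The capacity function

For a function `K : ℝ → ℝ` we define `That K` by `That K x = x` for `x ≤ 1` and
`That K x = 1 + K (That K ((x - 1) / 2))` for `x > 1`, and prove the key merging inequality.
-/

namespace Pool.Agent.LeafPaths

open Finset

/-- The capacity function of `K`. -/
noncomputable def That (K : ℝ → ℝ) (x : ℝ) : ℝ :=
  if h : x ≤ 1 then x else 1 + K (That K ((x - 1) / 2))
termination_by ⌊x⌋₊
decreasing_by
  push Not at h
  have h1 : ⌊(x - 1) / 2⌋₊ ≤ ⌊x - 1⌋₊ := Nat.floor_mono (by linarith)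
  have h2 : ⌊x - 1⌋₊ = ⌊x⌋₊ - 1 := by
    have := Nat.floor_sub_natCast x 1
    rw [Nat.cast_one] at this
    exact this
  have h3 : 1 ≤ ⌊x⌋₊ := Nat.one_le_floor_iff x |>.2 h.le
  omega

lemma That_le {K : ℝ → ℝ} {x : ℝ} (h : x ≤ 1) : That K x = x := by
  rw [That, dif_pos h]

lemma That_gt {K : ℝ → ℝ} {x : ℝ} (h : 1 < x) : That K x = 1 + K (That K ((x - 1) / 2)) := by
  rw [That, dif_neg (not_le.2 h)]

lemma halving {P : ℝ → Prop} (h0 : ∀ x, 0 ≤ x → x ≤ 1 → P x)
    (h1 : ∀ x, 1 < x → P ((x - 1) / 2) → P x) : ∀ x, 0 ≤ x → P x := by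
  have key : ∀ n : ℕ, ∀ x : ℝ, 0 ≤ x → x ≤ n + 1 → P x := by
    intro n
    induction n with
    | zero => intro x hx hx1; exact h0 x hx (by simpa using hx1)
    | succ n ih =>
      intro x hx hxn
      by_cases h : x ≤ 1
      · exact h0 x hx h
      · push Not at h
        apply h1 x h
        apply ih
        · linarith
        · push_cast at hxn
          have : (0:ℝ) ≤ n := Nat.cast_nonneg n
          linarith
  intro x hx
  obtain ⟨n, hn⟩ := exists_nat_ge x
  exact key n x hx (by linarith)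

/-- conditions on a capacity generator -/
structure Good (K : ℝ → ℝ) : Prop where
  mono : ∀ x y, 0 ≤ x → x ≤ y → K x ≤ K y
  nonneg : ∀ x, 0 ≤ x → 0 ≤ K x

lemma That_nonneg {K : ℝ → ℝ} (hK : Good K) : ∀ x, 0 ≤ x → 0 ≤ That K x := by
  apply halving
  · intro x hx hx1; rw [That_le hx1]; exact hx
  · intro x hx ih
    rw [That_gt hx]
    have := hK.nonneg _ ih
    linarith

lemma That_mono {K : ℝ → ℝ} (hK : Good K) : ∀ x, 0 ≤ x → ∀ y, x ≤ y → That K x ≤ That K y := by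
  apply halving
  · intro x hx hx1 y hxy
    rw [That_le hx1]
    by_cases hy : y ≤ 1
    · rw [That_le hy]; exact hxy
    · push Not at hy
      rw [That_gt hy]
      have := hK.nonneg _ (That_nonneg hK ((y-1)/2) (by linarith))
      linarith
  · intro x hx ih y hxy
    rw [That_gt hx, That_gt (lt_of_lt_of_le hx hxy)]
    have h1 := ih ((y-1)/2) (by linarith)
    have h2 := hK.mono _ _ (That_nonneg hK ((x-1)/2) (by linarith)) h1
    linarith

/-- first comparison lemma -/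
lemma That_shift {K K₁ : ℝ → ℝ} (hK : Good K) (hK₁ : Good K₁) (c : ℝ) (hc : 2 ≤ c)
    (hadd : ∀ δ x, 0 ≤ δ → δ ≤ 1 → 0 ≤ x → c * δ + K₁ x ≤ K (δ + x)) :
    ∀ x, 0 ≤ x → ∀ γ, 0 ≤ γ → γ ≤ 1 → That K₁ x + γ ≤ That K (x + γ) := by
  apply halving
  · intro x hx hx1 γ hγ hγ1
    rw [That_le hx1]
    by_cases h : x + γ ≤ 1
    · rw [That_le h]
    · push Not at h
      rw [That_gt h]
      have h1 : (x + γ - 1) / 2 ≤ 1 := by linarith
      rw [That_le h1]
      have h2 := hadd ((x + γ - 1) / 2) 0 (by linarith) h1 le_rfl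
      have h3 := hK₁.nonneg 0 le_rfl
      rw [add_zero] at h2
      have h4 : 2 * ((x + γ - 1) / 2) ≤ c * ((x + γ - 1) / 2) :=
        mul_le_mul_of_nonneg_right hc (by linarith)
      linarith
  · intro x hx ih γ hγ hγ1
    rw [That_gt hx, That_gt (by linarith : 1 < x + γ)]
    have h1 := ih (γ / 2) (by linarith) (by linarith)
    have h2 : (x - 1) / 2 + γ / 2 = (x + γ - 1) / 2 := by ring
    rw [h2] at h1
    have h0 := That_nonneg hK₁ ((x-1)/2) (by linarith)
    have h3 := hK.mono _ _ (by linarith : (0:ℝ) ≤ That K₁ ((x - 1) / 2) + γ / 2) h1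
    have h4 := hadd (γ / 2) (That K₁ ((x - 1) / 2)) (by linarith) (by linarith) h0
    have h5 : 2 * (γ / 2) ≤ c * (γ / 2) := mul_le_mul_of_nonneg_right hc (by linarith)
    rw [add_comm (γ/2)] at h4
    linarith

/-- second comparison lemma (merging) -/
lemma That_merge {ι : Type*} (J : Finset ι) {K K₁ : ℝ → ℝ} {Kj : ι → ℝ → ℝ} (hK : Good K)
    (hK₁ : Good K₁) (hKj : ∀ j ∈ J, Good (Kj j)) (hJ : 1 ≤ J.card)
    (hadd : ∀ δ x : ℝ, ∀ y : ι → ℝ, 0 ≤ δ → δ ≤ 1 → 0 ≤ x → (∀ j ∈ J, 0 ≤ y j) →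
      ((J.card : ℝ) + 1) * δ + K₁ x + ∑ j ∈ J, Kj j (y j) ≤ K (δ + x + ∑ j ∈ J, y j)) :
    ∀ b₂, 0 ≤ b₂ → ∀ b₁, b₂ ≤ b₁ →
      1 + That K₁ b₁ + ∑ j ∈ J, That (Kj j) b₂ ≤ That K (1 + b₁ + b₂) := by
  have hJ' : (1 : ℝ) ≤ J.card := by exact_mod_cast hJ
  have hadd1 : ∀ δ x : ℝ, 0 ≤ δ → δ ≤ 1 → 0 ≤ x →
      ((J.card : ℝ) + 1) * δ + K₁ x ≤ K (δ + x) := by
    intro δ x h0 h1 hx
    have h2 := hadd δ x (fun _ => 0) h0 h1 hx (fun _ _ => le_rfl)
    have h3 : 0 ≤ ∑ j ∈ J, Kj j 0 := Finset.sum_nonneg fun j hj => (hKj j hj).nonneg 0 le_rfl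
    simp only [Finset.sum_const_zero, add_zero] at h2
    linarith
  apply halving
  · intro β hβ hβ1 b₁ hb
    have hsum : ∑ j ∈ J, That (Kj j) β = J.card * β := by
      rw [Finset.sum_congr rfl (fun j _ => That_le hβ1), Finset.sum_const, nsmul_eq_mul]
    rw [hsum]
    by_cases h1 : b₁ ≤ 1
    · rw [That_le h1]
      by_cases h2 : b₁ + β ≤ 0
      · have h3 : b₁ = 0 := by linarith
        have h4 : β = 0 := by linarith
        rw [h3, h4, That_le (by norm_num)]
        simp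
      · push Not at h2
        rw [That_gt (by linarith)]
        have h3 : (1 + b₁ + β - 1) / 2 ≤ 1 := by linarith
        rw [That_le h3]
        have h4 := hadd1 ((1 + b₁ + β - 1) / 2) 0 (by linarith) h3 le_rfl
        rw [add_zero] at h4
        have h5 := hK₁.nonneg 0 le_rfl
        nlinarith [mul_nonneg (sub_nonneg.2 hJ') (sub_nonneg.2 hb)]
    · push Not at h1
      rw [That_gt h1, That_gt (by linarith : 1 < 1 + b₁ + β)]
      have h2 := That_shift hK hK₁ ((J.card : ℝ) + 1) (by linarith) hadd1 ((b₁ - 1) / 2)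
        (by linarith) ((1 + β) / 2) (by linarith) (by linarith)
      have h3 : (b₁ - 1) / 2 + (1 + β) / 2 = (1 + b₁ + β - 1) / 2 := by ring
      rw [h3] at h2
      have h0 := That_nonneg hK₁ ((b₁-1)/2) (by linarith)
      have h4 := hK.mono _ _ (by linarith) h2
      have h5 := hadd1 ((1 + β) / 2) (That K₁ ((b₁ - 1) / 2)) (by linarith) (by linarith) h0
      rw [add_comm ((1 + β) / 2)] at h5
      nlinarith [mul_nonneg (sub_nonneg.2 hJ') (sub_nonneg.2 hβ1)]
  · intro x hx ih b₁ hb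
    have hb1 : 1 < b₁ := lt_of_lt_of_le hx hb
    rw [That_gt hb1, That_gt (by linarith : 1 < 1 + b₁ + x)]
    have hsum : ∑ j ∈ J, That (Kj j) x = J.card + ∑ j ∈ J, Kj j (That (Kj j) ((x - 1) / 2)) := by
      rw [Finset.sum_congr rfl (fun j _ => That_gt hx), Finset.sum_add_distrib, Finset.sum_const,
        nsmul_eq_mul, mul_one]
    rw [hsum]
    have h1 := ih ((b₁ - 1) / 2) (by linarith)
    have h2 : 1 + (b₁ - 1) / 2 + (x - 1) / 2 = (1 + b₁ + x - 1) / 2 := by ring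
    rw [h2] at h1
    have h0 := That_nonneg hK₁ ((b₁-1)/2) (by linarith)
    have h0' : ∀ j ∈ J, 0 ≤ That (Kj j) ((x - 1) / 2) :=
      fun j hj => That_nonneg (hKj j hj) _ (by linarith)
    have h3 := hadd 1 (That K₁ ((b₁ - 1) / 2)) (fun j => That (Kj j) ((x - 1) / 2))
      zero_le_one le_rfl h0 h0'
    have h4 := hK.mono _ _ (by
      have := Finset.sum_nonneg h0'
      linarith) h1
    linarith

end Pool.Agent.LeafPaths
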